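import Mathlib
import Pool.Agent.T6.H25.PMMain

set_option autoImplicit false

/-!
# Propermutable subgroups of order `2 ^ k` of a nonabelian Sylow 2-subgroup force 2-nilpotency
-/

namespace Pool.Agent.Results.MP_791b9a_al.TwoNilpotent

open Subgroup
open scoped Pointwise

/-- `H` and `X` permute: `HX = XH` as sets of products. -/
def Permute {G : Type} [Group G] (H X : Subgroup G) : Prop :=
  (H : Set G) * (X : Set G) = (X : Set G) * (H : Set G)

/-- `H` is propermutable in `G`: for some subgroup `B`, `G = N_G(H) B` and `H` permutes with every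
subgroup of `B`. -/
def Propermutable {G : Type} [Group G] (H : Subgroup G) : Prop :=
  ∃ B : Subgroup G, (normalizer (H : Set G) : Set G) * (B : Set G) = Set.univ ∧
    ∀ X : Subgroup G, X ≤ B → Permute H X

/-- `G` is 2-nilpotent: a normal subgroup of odd order has with a Sylow 2-subgroup the product
`G`. -/
def TwoNilpotent (G : Type) [Group G] : Prop :=
  ∃ N : Subgroup G, N.Normal ∧ Odd (Nat.card N) ∧
    ∃ P : Sylow 2 G, (N : Set G) * (P : Set G) = Set.univ

/-- If `P` is a nonabelian Sylow 2-subgroup of the finite group `G`, `|P| = 2 ^ n`, `1 < k < n` and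
every subgroup of `P` of order `2 ^ k` is propermutable in `G`, then `G` is 2-nilpotent. -/
theorem result (G : Type) [Group G] [Finite G] (P : Sylow 2 G)
    (hP : ¬ ∀ x ∈ P, ∀ y ∈ P, x * y = y * x) (n k : ℕ) (hn : Nat.card P = 2 ^ n)
    (hk1 : 1 < k) (hkn : k < n)
    (h : ∀ H : Subgroup G, H ≤ P → Nat.card H = 2 ^ k → Propermutable H) :
    TwoNilpotent G := by
  obtain ⟨N, hN, hNo, hNP⟩ := Pool.Agent.T6.H25.PM.main P hP (k := k) hk1
    (by
      have h1 : Nat.card (P : Subgroup G) = 2 ^ n := hn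
      rw [h1]
      exact Nat.pow_lt_pow_right (by norm_num) hkn)
    (fun H hH hc => by
      obtain ⟨B, hB1, hB2⟩ := h H hH hc
      refine ⟨B, fun g => ?_, fun X hX => Pool.Agent.T6.H25.PM.pm_iff.2 (hB2 X hX)⟩
      have hg : g ∈ (normalizer (H : Set G) : Set G) * (B : Set G) := by
        rw [hB1]; exact Set.mem_univ g
      obtain ⟨a, ha, b, hb, e⟩ := hg
      exact ⟨a, ha, b, hb, e.symm⟩)
  refine ⟨N, hN, hNo, P, ?_⟩
  rw [Set.eq_univ_iff_forall]
  intro g
  obtain ⟨a, ha, b, hb, e⟩ := hNP g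
  exact ⟨a, ha, b, hb, e.symm⟩

end Pool.Agent.Results.MP_791b9a_al.TwoNilpotent
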